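import Pool.Agent.Y808.LB.Stm2

/-!
# The local ring of `V[X_1,...,X_r]/(F - π)` at the origin is regular (task RF)
-/

set_option autoImplicit false

open Polynomial IsLocalRing

noncomputable section

namespace Pool.Agent.Y888.LB

open Pool.Agent.Y808.LB

section
variable {V : Type} [CommRing V] {r : ℕ}

theorem sub_const_mem (f : MvPolynomial (Fin r) V) :
    f - MvPolynomial.C (MvPolynomial.constantCoeff f) ∈
      Ideal.span (Set.range (MvPolynomial.X : Fin r → MvPolynomial (Fin r) V)) := by
  induction f using MvPolynomial.induction_on with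
  | C a => simp
  | add p q hp hq =>
    have : p + q - MvPolynomial.C (MvPolynomial.constantCoeff (p + q)) =
        (p - MvPolynomial.C (MvPolynomial.constantCoeff p)) +
          (q - MvPolynomial.C (MvPolynomial.constantCoeff q)) := by
      rw [map_add, map_add]; ring
    rw [this]
    exact Ideal.add_mem _ hp hq
  | mul_X p i hp =>
    have : p * MvPolynomial.X i - MvPolynomial.C (MvPolynomial.constantCoeff
        (p * MvPolynomial.X i)) = p * MvPolynomial.X i := by simp
    rw [this]
    exact Ideal.mul_mem_left _ _ (Ideal.subset_span ⟨i, rfl⟩)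

/-- evaluation of the first `k` variables at zero -/
def ev (k : ℕ) : MvPolynomial (Fin r) V →ₐ[V] MvPolynomial (Fin r) V :=
  MvPolynomial.aeval fun i : Fin r => if (i : ℕ) < k then 0 else MvPolynomial.X i

/-- its kernel -/
def kr (k : ℕ) : Ideal (MvPolynomial (Fin r) V) := RingHom.ker (ev (V := V) (r := r) k).toRingHom

theorem mem_kr {k : ℕ} {f : MvPolynomial (Fin r) V} : f ∈ kr k ↔ ev k f = 0 := Iff.rfl

theorem ev_ev (k : ℕ) (f : MvPolynomial (Fin r) V) : ev (k + 1) (ev k f) = ev (k + 1) f := by
  have : (ev (V := V) (r := r) (k + 1)).comp (ev k) = ev (k + 1) := by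
    refine MvPolynomial.algHom_ext fun i => ?_
    simp only [ev, AlgHom.comp_apply, MvPolynomial.aeval_X]
    split_ifs with h1 h2 h2
    · rw [map_zero]
    · omega
    · rw [MvPolynomial.aeval_X, if_pos h2]
    · rw [MvPolynomial.aeval_X, if_neg h2]
  exact DFunLike.congr_fun this f

theorem ev_r (f : MvPolynomial (Fin r) V) :
    ev r f = MvPolynomial.C (MvPolynomial.constantCoeff f) := by
  induction f using MvPolynomial.induction_on with
  | C a => simp [ev]
  | add p q hp hq => rw [map_add, hp, hq, map_add, map_add]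
  | mul_X p i hp => simp [ev]

variable [IsDomain V]

instance (k : ℕ) : (kr (V := V) (r := r) k).IsPrime := RingHom.ker_isPrime _

theorem kr_lt {k : ℕ} (hk : k < r) : kr (V := V) (r := r) k < kr (k + 1) := by
  refine lt_of_le_of_ne (fun f hf => ?_) fun h => ?_
  · rw [mem_kr] at hf ⊢
    rw [← ev_ev, hf, map_zero]
  · have h1 : (MvPolynomial.X ⟨k, hk⟩ : MvPolynomial (Fin r) V) ∈ kr (k + 1) := by
      rw [mem_kr, ev, MvPolynomial.aeval_X, if_pos (Nat.lt_succ_self k)]
    rw [← h, mem_kr, ev, MvPolynomial.aeval_X, if_neg (lt_irrefl k)] at h1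
    exact MvPolynomial.X_ne_zero _ h1

theorem le_height {k : ℕ} (hk : k ≤ r) : (k : ℕ∞) ≤ (kr (V := V) (r := r) k).height := by
  induction k with
  | zero => simp
  | succ k ih =>
    have h1 := Ideal.height_add_one_le_of_lt_of_isPrime (kr_lt (V := V) (r := r) (k := k) hk)
    have h2 := ih (by omega)
    rw [Nat.cast_succ]
    exact (add_le_add_left h2 1).trans h1

end

section
variable (V : Type) [CommRing V] [IsLocalRing V] (r : ℕ)

/-- the maximal ideal of the origin -/
def NN : Ideal (MvPolynomial (Fin r) V) :=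
  RingHom.ker ((residue V).comp MvPolynomial.constantCoeff)

instance : (NN V r).IsPrime := RingHom.ker_isPrime _

variable {V r}

theorem mem_NN {f : MvPolynomial (Fin r) V} :
    f ∈ NN V r ↔ MvPolynomial.constantCoeff f ∈ maximalIdeal V := by
  rw [NN, RingHom.mem_ker, RingHom.comp_apply, IsLocalRing.residue_eq_zero_iff]

theorem core {π : V} (hπ : Prime π) [IsDomain V] [IsPrincipalIdealRing V]
    {B : Type} [CommRing B] [IsLocalRing B] (j : V →+* B)
    {F : MvPolynomial (Fin r) V} {x : Fin r → B} (hF : MvPolynomial.constantCoeff F = 0)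
    (hx : ∀ i, x i ∈ maximalIdeal B) (hFx : MvPolynomial.eval₂ j x F = j π)
    {S : Type} [CommRing S] [IsLocalRing S] [IsNoetherianRing S]
    [Algebra (MvPolynomial (Fin r) V) S] [IsLocalization.AtPrime S (NN V r)]
    {R : Type} [CommRing R] (mk : S →+* R) (hmk : Function.Surjective mk)
    (hker : RingHom.ker mk =
      Ideal.span {algebraMap (MvPolynomial (Fin r) V) S (F - MvPolynomial.C π)}) :
    ∃ (_ : IsRegularLocalRing R) (i : V →+* R) (φ : R →+* B) (a : Fin r → R),
    ringKrullDim R = (r : WithBot ℕ∞) ∧ IsLocalHom φ ∧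
    maximalIdeal R = Ideal.span (Set.range a) ∧ (∀ l, φ (a l) = x l) ∧
    (∀ v, φ (i v) = j v) ∧ ∀ y : R, ∃ v : V, y - i v ∈ maximalIdeal R := by
  -- the maximal ideal of `V`
  have hmax : maximalIdeal V = Ideal.span {π} := by
    have h1 : (Ideal.span {π} : Ideal V).IsPrime := (Ideal.span_singleton_prime hπ.ne_zero).2 hπ
    have h2 : (Ideal.span {π} : Ideal V).IsMaximal :=
      IsPrime.to_maximal_ideal (by rw [Ne, Ideal.span_singleton_eq_bot]; exact hπ.ne_zero)
    exact (IsLocalRing.eq_maximalIdeal h2).symm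
  have hf0 : F - MvPolynomial.C π ∈ NN V r := by
    rw [mem_NN, map_sub, hF, MvPolynomial.constantCoeff_C, zero_sub, hmax]
    exact neg_mem (Ideal.mem_span_singleton_self π)
  have hmS : (NN V r).map (algebraMap _ S) = maximalIdeal S :=
    IsLocalization.AtPrime.map_eq_maximalIdeal (NN V r) S
  have hJ : RingHom.ker mk ≤ maximalIdeal S := by
    rw [hker, Ideal.span_singleton_le_iff_mem, ← hmS]
    exact Ideal.mem_map_of_mem _ hf0
  have hmk0 : mk (algebraMap (MvPolynomial (Fin r) V) S (F - MvPolynomial.C π)) = 0 := by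
    rw [← RingHom.mem_ker, hker]
    exact Ideal.mem_span_singleton_self _
  have : Nontrivial R := by
    refine ⟨⟨0, 1, fun h => ?_⟩⟩
    have h1 : (1 : S) ∈ RingHom.ker mk := by rw [RingHom.mem_ker, map_one, ← h]
    exact (Ideal.ne_top_iff_one _).1 (maximalIdeal.isMaximal S).ne_top (hJ h1)
  have : IsLocalRing R := IsLocalRing.of_surjective' mk hmk
  have : IsNoetherianRing R := isNoetherianRing_of_surjective S R mk hmk
  have hmR : (maximalIdeal S).map mk = maximalIdeal R :=
    IsLocalRing.map_maximalIdeal_of_surjective mk hmk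
  let a : Fin r → R := fun l => mk (algebraMap (MvPolynomial (Fin r) V) S (MvPolynomial.X l))
  have hfX : ∀ f : MvPolynomial (Fin r) V, mk (algebraMap _ S
      (f - MvPolynomial.C (MvPolynomial.constantCoeff f))) ∈ Ideal.span (Set.range a) := by
    intro f
    have h1 := Ideal.mem_map_of_mem (mk.comp (algebraMap (MvPolynomial (Fin r) V) S))
      (sub_const_mem f)
    rw [Ideal.map_span, ← Set.range_comp] at h1
    exact h1
  have hπR : mk (algebraMap (MvPolynomial (Fin r) V) S (MvPolynomial.C π)) ∈
      Ideal.span (Set.range a) := by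
    have h1 := hfX F
    rw [hF, map_zero, sub_zero] at h1
    have h2 : mk (algebraMap _ S F) =
        mk (algebraMap (MvPolynomial (Fin r) V) S (MvPolynomial.C π)) := by
      rw [← sub_eq_zero, ← map_sub, ← map_sub]
      exact hmk0
    rw [← h2]
    exact h1
  have hmaxR : maximalIdeal R = Ideal.span (Set.range a) := by
    apply le_antisymm
    · rw [← hmR, ← hmS, Ideal.map_map, Ideal.map_le_iff_le_comap]
      intro f hf
      have h1 := mem_NN.1 hf
      rw [hmax, Ideal.mem_span_singleton'] at h1
      obtain ⟨b, hb⟩ := h1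
      have h2 : f = (f - MvPolynomial.C (MvPolynomial.constantCoeff f)) +
          MvPolynomial.C b * MvPolynomial.C π := by
        rw [← map_mul, hb, sub_add_cancel]
      rw [Ideal.mem_comap, h2, map_add, map_mul]
      exact Ideal.add_mem _ (hfX f) (Ideal.mul_mem_left _ _ hπR)
    · rw [Ideal.span_le]
      rintro _ ⟨l, rfl⟩
      rw [← hmR, ← hmS]
      refine Ideal.mem_map_of_mem _ (Ideal.mem_map_of_mem _ ?_)
      rw [mem_NN, MvPolynomial.constantCoeff_X]
      exact zero_mem _
  have hrank : (maximalIdeal R).spanFinrank ≤ r := by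
    rw [hmaxR]
    refine (Submodule.spanFinrank_span_le_ncard_of_finite (Set.finite_range a)).trans ?_
    have := Finite.card_range_le a
    rwa [Nat.card_fin, Nat.card_coe_set_eq] at this
  have hdim1 : ringKrullDim R ≤ r :=
    (ringKrullDim_le_spanFinrank_maximalIdeal R).trans (by exact_mod_cast hrank)
  have hdim2 : (r : WithBot ℕ∞) ≤ ringKrullDim R := by
    have h1 : ((r + 1 : ℕ) : ℕ∞) ≤ (NN V r).height := by
      have h2 : kr (V := V) (r := r) r < NN V r := by
        refine lt_of_le_of_ne (fun f hf => ?_) fun h => ?_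
        · rw [mem_kr, ev_r, MvPolynomial.C_eq_zero] at hf
          rw [mem_NN, hf]
          exact zero_mem _
        · have h3 : (MvPolynomial.C π : MvPolynomial (Fin r) V) ∈ NN V r := by
            rw [mem_NN, MvPolynomial.constantCoeff_C, hmax]
            exact Ideal.mem_span_singleton_self π
          rw [← h, mem_kr, ev_r, MvPolynomial.C_eq_zero, MvPolynomial.constantCoeff_C] at h3
          exact hπ.ne_zero h3
      have h3 := Ideal.height_add_one_le_of_lt_of_isPrime h2
      have h4 := le_height (V := V) (r := r) le_rfl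
      rw [Nat.cast_succ]
      exact (add_le_add_left h4 1).trans h3
    have h2 := Ideal.height_le_ringKrullDim_quotient_add_one (R := S) (p := maximalIdeal S)
      (r := algebraMap _ S (F - MvPolynomial.C π)) (hJ (by
        rw [hker]; exact Ideal.mem_span_singleton_self _))
    rw [IsLocalRing.maximalIdeal_height_eq_ringKrullDim,
      IsLocalization.AtPrime.ringKrullDim_eq_height (NN V r) S, ← hker,
      ringKrullDim_eq_of_ringEquiv (RingHom.quotientKerEquivOfSurjective hmk)] at h2
    have h3 : ((r : WithBot ℕ∞) + 1) ≤ ringKrullDim R + 1 := by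
      refine le_trans ?_ h2
      have h4 : (((r + 1 : ℕ) : ℕ∞) : WithBot ℕ∞) ≤ ((NN V r).height : WithBot ℕ∞) :=
        WithBot.coe_le_coe.2 h1
      refine le_trans (le_of_eq ?_) h4
      push_cast
      rfl
    have h4 : ringKrullDim R ≠ ⊥ := by
      intro h5
      have := ringKrullDim_nonneg_of_nontrivial (R := R)
      rw [h5] at this
      exact absurd this (by simp)
    obtain ⟨d, hd⟩ := WithBot.ne_bot_iff_exists.1 h4
    rw [← hd] at h3 ⊢
    have h5 : ((r : ℕ∞) + 1) ≤ d + 1 := by
      exact_mod_cast h3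
    have h6 : (r : ℕ∞) ≤ d := by
      rcases eq_or_ne d ⊤ with h7 | h7
      · rw [h7]; exact le_top
      · lift d to ℕ using h7
        have : r + 1 ≤ d + 1 := by exact_mod_cast h5
        exact_mod_cast Nat.le_of_succ_le_succ this
    exact_mod_cast h6
  have hdim : ringKrullDim R = (r : WithBot ℕ∞) := le_antisymm hdim1 hdim2
  have hreg : IsRegularLocalRing R := by
    apply IsRegularLocalRing.of_spanFinrank_maximalIdeal_le
    rw [hdim]
    exact_mod_cast hrank
  -- the homomorphism to `B`
  let e : MvPolynomial (Fin r) V →+* B := MvPolynomial.eval₂Hom j x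
  have heC : ∀ v, e (MvPolynomial.C v) = j v := fun v => MvPolynomial.eval₂Hom_C _ _ _
  have heX' : ∀ l, e (MvPolynomial.X l) = x l := fun l => MvPolynomial.eval₂Hom_X' _ _ _
  have heX : ∀ f ∈ Ideal.span (Set.range (MvPolynomial.X : Fin r → MvPolynomial (Fin r) V)),
      e f ∈ maximalIdeal B := by
    intro f hf
    have h1 : Ideal.span (Set.range (MvPolynomial.X : Fin r → MvPolynomial (Fin r) V)) ≤
        (maximalIdeal B).comap e := by
      rw [Ideal.span_le]
      rintro _ ⟨l, rfl⟩
      change e (MvPolynomial.X l) ∈ maximalIdeal B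
      rw [heX']
      exact hx l
    exact h1 hf
  have huV : ∀ g : (NN V r).primeCompl,
      IsUnit (MvPolynomial.constantCoeff (g : MvPolynomial (Fin r) V)) := by
    intro g
    by_contra h3
    exact g.2 (mem_NN.2 h3)
  have heu : ∀ g : (NN V r).primeCompl, IsUnit (e g) := by
    intro g
    have h3 := heX _ (sub_const_mem (g : MvPolynomial (Fin r) V))
    rw [map_sub, heC] at h3
    by_contra h4
    have h5 : j (MvPolynomial.constantCoeff (g : MvPolynomial (Fin r) V)) ∈ maximalIdeal B := by
      have h6 : e g ∈ maximalIdeal B := h4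
      have := Ideal.sub_mem _ h6 h3
      rwa [sub_sub_cancel] at this
    exact h5 ((huV g).map j)
  let φS : S →+* B := IsLocalization.lift heu
  have hφS : ∀ f, φS (algebraMap _ S f) = e f := fun f => IsLocalization.lift_eq heu f
  have hφ0 : ∀ s ∈ RingHom.ker mk, φS s = 0 := by
    intro s hs
    rw [hker, Ideal.mem_span_singleton'] at hs
    obtain ⟨b, rfl⟩ := hs
    have h1 : e F = j π := hFx
    rw [map_mul, hφS, map_sub, heC, h1, sub_self, mul_zero]
  let φ : R →+* B := RingHom.liftOfSurjective mk hmk ⟨φS, hφ0⟩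
  have hφ : ∀ s : S, φ (mk s) = φS s := fun s =>
    RingHom.liftOfRightInverse_comp_apply mk _ _ ⟨φS, hφ0⟩ s
  let i : V →+* R := (mk.comp (algebraMap _ S)).comp
    (MvPolynomial.C : V →+* MvPolynomial (Fin r) V)
  refine ⟨hreg, i, φ, a, hdim, ⟨fun y hy => ?_⟩, hmaxR, ?_, ?_, ?_⟩
  · by_contra h1
    have h2 : y ∈ maximalIdeal R := h1
    rw [hmaxR] at h2
    have h3 : Ideal.span (Set.range a) ≤ (maximalIdeal B).comap φ := by
      rw [Ideal.span_le]
      rintro _ ⟨l, rfl⟩
      change φ (mk _) ∈ maximalIdeal B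
      rw [hφ, hφS, heX']
      exact hx l
    exact (h3 h2) hy
  · intro l
    change φ (mk _) = _
    rw [hφ, hφS, heX']
  · intro v
    change φ (mk _) = _
    rw [hφ, hφS, heC]
  · intro y
    obtain ⟨s, rfl⟩ := hmk y
    obtain ⟨f, g, rfl⟩ := IsLocalization.exists_mk'_eq (NN V r).primeCompl s
    obtain ⟨u, hu⟩ := huV g
    refine ⟨MvPolynomial.constantCoeff f * (u⁻¹ : Vˣ), ?_⟩
    change mk (IsLocalization.mk' S f g) - mk (algebraMap _ S (MvPolynomial.C _)) ∈ _
    rw [← map_sub, ← hmR]
    apply Ideal.mem_map_of_mem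
    have h4 : IsUnit (algebraMap (MvPolynomial (Fin r) V) S g) := IsLocalization.map_units S g
    rw [← Ideal.mul_unit_mem_iff_mem _ h4, sub_mul, IsLocalization.mk'_spec, ← map_mul,
      ← map_sub, ← hmS]
    apply Ideal.mem_map_of_mem
    rw [mem_NN, map_sub, map_mul, MvPolynomial.constantCoeff_C, ← hu, mul_assoc,
      Units.inv_mul, mul_one, sub_self]
    exact zero_mem _

theorem core' {π : V} (hπ : Prime π) [IsDomain V] [IsPrincipalIdealRing V]
    {B : Type} [CommRing B] [IsLocalRing B] (j : V →+* B)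
    {F : MvPolynomial (Fin r) V} {x : Fin r → B} (hF : MvPolynomial.constantCoeff F = 0)
    (hx : ∀ i, x i ∈ maximalIdeal B) (hFx : MvPolynomial.eval₂ j x F = j π)
    (S : Type) [CommRing S] [IsLocalRing S] [IsNoetherianRing S]
    [Algebra (MvPolynomial (Fin r) V) S] [IsLocalization.AtPrime S (NN V r)] :
    ∃ (R : Type) (_ : CommRing R) (_ : IsRegularLocalRing R)
    (i : V →+* R) (φ : R →+* B) (a : Fin r → R),
    ringKrullDim R = (r : WithBot ℕ∞) ∧ IsLocalHom φ ∧
    maximalIdeal R = Ideal.span (Set.range a) ∧ (∀ l, φ (a l) = x l) ∧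
    (∀ v, φ (i v) = j v) ∧ ∀ y : R, ∃ v : V, y - i v ∈ maximalIdeal R :=
  ⟨_, _, core (S := S) hπ j hF hx hFx
    (Ideal.Quotient.mk (Ideal.span {algebraMap (MvPolynomial (Fin r) V) S
      (F - MvPolynomial.C π)})) Ideal.Quotient.mk_surjective (Ideal.mk_ker)⟩

end

theorem t_RF : S_RF := by
  intro V _ _ _ _ π hπ B _ _ j r F x hF hx hFx
  have h1 : IsNoetherianRing (MvPolynomial (Fin r) V) := inferInstance
  have h2 : IsNoetherianRing (Localization.AtPrime (NN V r)) :=
    IsLocalization.isNoetherianRing (NN V r).primeCompl _ h1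
  exact core' hπ j hF hx hFx (Localization.AtPrime (NN V r))

end Pool.Agent.Y888.LB
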